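import Pool.Agent.Lib.MP_5e5259_an.Main

/-!
The two-measure form of the invariance question has a negative answer: for every `s > 0` and every
homeomorphism `φ` with an invertible strict derivative that is not a similarity at some point,
there are finite measures `μ`, `ν` such that the truncated `s`-dimensional vector Riesz transforms
are uniformly bounded from `L²(μ)` to `L²(ν)` but not from `L²(φ μ)` to `L²(φ ν)`.
-/

open MeasureTheory Pool.Agent.Lib.MP_5e5259_an

namespace Pool.Agent.Results.MP_5e5259_an.TwoWeight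

theorem result {d : ℕ} (s : ℝ) (hs : 0 < s)
    (φ : EuclideanSpace ℝ (Fin d) ≃ₜ EuclideanSpace ℝ (Fin d))
    (A : EuclideanSpace ℝ (Fin d) ≃L[ℝ] EuclideanSpace ℝ (Fin d)) (p : EuclideanSpace ℝ (Fin d))
    (h : HasStrictFDerivAt φ (A : EuclideanSpace ℝ (Fin d) →L[ℝ] EuclideanSpace ℝ (Fin d)) p)
    (hA : ¬ ∃ c : ℝ, ∀ x, ‖A x‖ = c * ‖x‖) :
    ∃ μ ν : Measure (EuclideanSpace ℝ (Fin d)), IsFiniteMeasure μ ∧ IsFiniteMeasure ν ∧
      Bdd s μ ν ∧ ¬ Bdd s (μ.map φ) (ν.map φ) :=
  main hs φ A p h hA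

end Pool.Agent.Results.MP_5e5259_an.TwoWeight
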